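import Mathlib
import Pool.Agent.U309.ZF.Stm4

/-!
# Project ZF3, package ETA11 (helper774 for helper309)

The form `f(τ) = η(τ)² η(11τ)²` of `X_0(11)` is positive on the imaginary axis: on it `η` is real (its
complex conjugate is computed factor by factor) and nonzero.
-/

set_option autoImplicit false

open UpperHalfPlane MatrixGroups CongruenceSubgroup

namespace Pool.Agent.U774.ZF

lemma eta11_conj_w {w : ℂ} (hw : w.re = 0) : (starRingEnd ℂ) w = -w := by
  apply Complex.ext
  · simp [hw]
  · simp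

lemma eta11_qParam {w : ℂ} (hw : w.re = 0) (h : ℝ) :
    (starRingEnd ℂ) (Function.Periodic.qParam h w) = Function.Periodic.qParam h w := by
  unfold Function.Periodic.qParam
  rw [← Complex.exp_conj]
  congr 1
  have h2 : (starRingEnd ℂ) (2 : ℂ) = 2 := map_ofNat _ 2
  rw [map_div₀, map_mul, map_mul, map_mul, Complex.conj_I, Complex.conj_ofReal, Complex.conj_ofReal,
    eta11_conj_w hw, h2]
  ring

/-- On the imaginary axis the Dedekind eta function is real. -/
lemma eta11_im {w : ℂ} (hw : w.re = 0) : (ModularForm.eta w).im = 0 := by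
  rw [← Complex.conj_eq_iff_im]
  unfold ModularForm.eta
  rw [map_mul, eta11_qParam hw]
  congr 1
  rw [Function.LeftInverse.map_tprod (fun n : ℕ => 1 - ModularForm.eta_q n w)
    (g := starRingEnd ℂ) Complex.continuous_conj (g' := starRingEnd ℂ) Complex.continuous_conj
    (fun z => Complex.conj_conj z)]
  congr 1
  funext n
  rw [map_sub, map_one, map_pow, eta11_qParam hw]

/-- On the imaginary axis the square of the Dedekind eta function is a positive real. -/
lemma eta11_sq {w : ℂ} (hw : w.re = 0) (hi : 0 < w.im) :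
    ∃ r : ℝ, 0 < r ∧ ModularForm.eta w ^ 2 = (r : ℂ) := by
  have h1 := eta11_im hw
  have h2 : ModularForm.eta w ≠ 0 := ModularForm.eta_ne_zero hi
  have h3 : ModularForm.eta w = (((ModularForm.eta w).re : ℝ) : ℂ) := by
    apply Complex.ext
    · simp
    · simp [h1]
  refine ⟨(ModularForm.eta w).re ^ 2, ?_, ?_⟩
  · have h4 : (ModularForm.eta w).re ≠ 0 := by
      intro h
      apply h2
      rw [h3, h]
      simp
    positivity
  · rw [h3]
    push_cast
    simp

theorem t_ETA11 : Pool.Agent.U309.ZF.S_ETA11 := by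
  intro τ hτ
  have h1 : ((11 : ℂ) * (τ : ℂ)).re = 0 := by
    rw [Complex.mul_re, hτ]
    simp
  have h2 : 0 < ((11 : ℂ) * (τ : ℂ)).im :=
    Pool.Agent.W97.TW.im_mul_nat τ.im_pos (n := 11) (by norm_num)
  obtain ⟨r, hr, hr'⟩ := eta11_sq hτ τ.im_pos
  obtain ⟨s, hs, hs'⟩ := eta11_sq h1 h2
  have h3 : Pool.Agent.W97.TW.f11 τ = Pool.Agent.W97.TW.e11 τ := rfl
  rw [h3]
  unfold Pool.Agent.W97.TW.e11
  rw [hr', hs', ← Complex.ofReal_mul, Complex.ofReal_re]
  exact mul_pos hr hs

end Pool.Agent.U774.ZF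

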