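import Mathlib
import Pool.Agent.U309.ZF.Stm3

/-! Project ZF3 (helper309), package IDX3 (helper774, after helper109): the index of `𝓞 K₁ ⊗ 𝓞 K₂`
in `𝓞 L`. -/

set_option autoImplicit false

open NumberField Module
open scoped TensorProduct Matrix Kronecker

namespace Pool.Agent.U774.ZF

section gen

variable {A B : Type} [CommRing A] [CommRing B] [Algebra ℚ A] [Algebra ℚ B]
  [FiniteDimensional ℚ A] [FiniteDimensional ℚ B]

theorem trace_tmul (x : A) (y : B) :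
    Algebra.trace ℚ (A ⊗[ℚ] B) (x ⊗ₜ[ℚ] y) = Algebra.trace ℚ A x * Algebra.trace ℚ B y := by
  rw [Algebra.trace_apply, Algebra.trace_apply, Algebra.trace_apply,
    ← LinearMap.trace_tensorProduct']
  congr 1
  apply TensorProduct.ext'
  intro a b
  simp

variable {ι κ : Type} [Fintype ι] [Fintype κ] [DecidableEq ι] [DecidableEq κ]

theorem discr_tensor (b : ι → A) (c : κ → B) :
    Algebra.discr ℚ (fun p : ι × κ => b p.1 ⊗ₜ[ℚ] c p.2) =
      Algebra.discr ℚ b ^ Fintype.card κ * Algebra.discr ℚ c ^ Fintype.card ι := by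
  rw [Algebra.discr_def, Algebra.discr_def, Algebra.discr_def, ← Matrix.det_kronecker]
  congr 1
  ext p p'
  simp only [Algebra.traceMatrix_apply, Algebra.traceForm_apply, Matrix.kroneckerMap_apply,
    Algebra.TensorProduct.tmul_mul_tmul]
  exact trace_tmul _ _

end gen

section main

variable {K₁ K₂ L : Type} [Field K₁] [NumberField K₁] [Field K₂] [NumberField K₂]
  [Field L] [NumberField L]

theorem integral_tmul (e : (K₁ ⊗[ℚ] K₂) ≃ₐ[ℚ] L) (x : 𝓞 K₁) (y : 𝓞 K₂) :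
    ∃ X : 𝓞 L, e ((x : K₁) ⊗ₜ[ℚ] (y : K₂)) = (X : L) := by
  let iL : K₁ →+* (K₁ ⊗[ℚ] K₂) := Algebra.TensorProduct.includeLeftRingHom
  let iR : K₂ →+* (K₁ ⊗[ℚ] K₂) :=
    (Algebra.TensorProduct.includeRight (R := ℚ) (A := K₁) (B := K₂)).toRingHom
  let e' : (K₁ ⊗[ℚ] K₂) →+* L := (e : (K₁ ⊗[ℚ] K₂) →+* L)
  have hxy : (x : K₁) ⊗ₜ[ℚ] (y : K₂) = iL x * iR y := by
    change _ = ((x : K₁) ⊗ₜ[ℚ] (1 : K₂)) * ((1 : K₁) ⊗ₜ[ℚ] (y : K₂))
    rw [Algebra.TensorProduct.tmul_mul_tmul, one_mul, mul_one]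
  have h1 : IsIntegral ℤ (e' ((x : K₁) ⊗ₜ[ℚ] (y : K₂))) := by
    rw [hxy, map_mul]
    refine IsIntegral.mul ?_ ?_
    · exact map_isIntegral_int (e'.comp iL) (RingOfIntegers.isIntegral_coe x)
    · exact map_isIntegral_int (e'.comp iR) (RingOfIntegers.isIntegral_coe y)
  exact ⟨⟨_, h1⟩, rfl⟩

theorem sum_repr_coe (x : 𝓞 L) :
    ∑ a, ((RingOfIntegers.basis L).repr x a : ℚ) • (integralBasis L a : L) = (x : L) := by
  have h := congrArg (algebraMap (𝓞 L) L) ((RingOfIntegers.basis L).sum_repr x)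
  rw [map_sum] at h
  refine Eq.trans (Finset.sum_congr rfl fun a _ => ?_) h
  rw [integralBasis_apply, map_zsmul, Int.cast_smul_eq_zsmul]

theorem idx3 (e : (K₁ ⊗[ℚ] K₂) ≃ₐ[ℚ] L) :
    Module.finrank ℚ L = Module.finrank ℚ K₁ * Module.finrank ℚ K₂ ∧
    ∃ m : ℤ, m ≠ 0 ∧
      NumberField.discr K₁ ^ Module.finrank ℚ K₂ * NumberField.discr K₂ ^ Module.finrank ℚ K₁ =
        m ^ 2 * NumberField.discr L ∧
      ∀ x : 𝓞 L, ∃ l : List (𝓞 K₁ × 𝓞 K₂),
        e ((l.map fun u => (u.1 : K₁) ⊗ₜ[ℚ] (u.2 : K₂)).sum) = (m : ℤ) • (x : L) := by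
  classical
  have hfin : finrank ℚ L = finrank ℚ K₁ * finrank ℚ K₂ := by
    have h := e.toLinearEquiv.finrank_eq
    rw [Module.finrank_tensorProduct] at h
    exact h.symm
  refine ⟨hfin, ?_⟩
  have c1 : Fintype.card (Free.ChooseBasisIndex ℤ (𝓞 K₁)) = finrank ℚ K₁ :=
    (finrank_eq_card_basis (integralBasis K₁)).symm
  have c2 : Fintype.card (Free.ChooseBasisIndex ℤ (𝓞 K₂)) = finrank ℚ K₂ :=
    (finrank_eq_card_basis (integralBasis K₂)).symm
  have c3 : Fintype.card (Free.ChooseBasisIndex ℤ (𝓞 L)) = finrank ℚ L :=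
    (finrank_eq_card_basis (integralBasis L)).symm
  let σ : Free.ChooseBasisIndex ℤ (𝓞 L) ≃
      Free.ChooseBasisIndex ℤ (𝓞 K₁) × Free.ChooseBasisIndex ℤ (𝓞 K₂) :=
    Fintype.equivOfCardEq (by rw [Fintype.card_prod, c1, c2, c3, hfin])
  set β₁ := RingOfIntegers.basis K₁ with hβ₁
  set b₁ := integralBasis K₁ with hb₁
  set β₂ := RingOfIntegers.basis K₂ with hβ₂
  set b₂ := integralBasis K₂ with hb₂
  set β := RingOfIntegers.basis L with hβ
  set b := integralBasis L with hb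
  choose X hX using fun p : Free.ChooseBasisIndex ℤ (𝓞 K₁) × Free.ChooseBasisIndex ℤ (𝓞 K₂) =>
    integral_tmul e (β₁ p.1) (β₂ p.2)
  let Q : Matrix (Free.ChooseBasisIndex ℤ (𝓞 L)) (Free.ChooseBasisIndex ℤ (𝓞 L)) ℤ :=
    Matrix.of fun j i => β.repr (X (σ i)) j
  have hrel : ∀ i, e ((β₁ (σ i).1 : K₁) ⊗ₜ[ℚ] (β₂ (σ i).2 : K₂)) = ∑ j, (Q j i : ℚ) • b j := by
    intro i
    rw [hX]
    exact (sum_repr_coe (X (σ i))).symm
  -- the discriminants
  have hdisc : (NumberField.discr K₁ : ℚ) ^ finrank ℚ K₂ * (NumberField.discr K₂ : ℚ) ^ finrank ℚ K₁ =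
      (Q.det : ℚ) ^ 2 * (NumberField.discr L : ℚ) := by
    have e1 : Algebra.discr ℚ (b₁.tensorProduct b₂) =
        (NumberField.discr K₁ : ℚ) ^ finrank ℚ K₂ * (NumberField.discr K₂ : ℚ) ^ finrank ℚ K₁ := by
      have := discr_tensor (b₁ : _ → K₁) (b₂ : _ → K₂)
      rw [c1, c2, hb₁, hb₂, ← NumberField.coe_discr, ← NumberField.coe_discr] at this
      rw [← this]
      congr 1
      ext p
      rw [Basis.tensorProduct_apply']
    have e2 : Algebra.discr ℚ b = (NumberField.discr L : ℚ) := by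
      rw [hb, ← NumberField.coe_discr]
    have e3 : (e ∘ (b₁.tensorProduct b₂ ∘ σ)) =
        (b : _ → L) ᵥ* ((Q.map (Int.cast : ℤ → ℚ)).map (algebraMap ℚ L)) := by
      ext1 i
      have : (e ∘ (b₁.tensorProduct b₂ ∘ σ)) i = e ((β₁ (σ i).1 : K₁) ⊗ₜ[ℚ] (β₂ (σ i).2 : K₂)) := by
        simp only [Function.comp_apply]
        rw [Basis.tensorProduct_apply', hb₁, hb₂, integralBasis_apply, integralBasis_apply]
      rw [this, hrel]
      simp only [Matrix.vecMul, dotProduct, Matrix.map_apply]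
      refine Finset.sum_congr rfl fun j _ => ?_
      rw [Algebra.smul_def, mul_comm]
    have e4 := Algebra.discr_of_matrix_vecMul (A := ℚ) (b : _ → L)
      (Q.map (Int.cast : ℤ → ℚ))
    rw [← e3, ← Algebra.discr_eq_discr_of_algEquiv, e2] at e4
    have e5 : Algebra.discr ℚ (b₁.tensorProduct b₂ ∘ σ) = Algebra.discr ℚ (b₁.tensorProduct b₂) := by
      have := Algebra.discr_reindex ℚ (b₁.tensorProduct b₂) σ.symm
      rwa [Equiv.symm_symm] at this
    rw [e5, e1] at e4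
    rw [e4]
    congr 2
    have := (Int.castRingHom ℚ).map_det Q
    rw [RingHom.mapMatrix_apply] at this
    exact this.symm
  refine ⟨Q.det, ?_, ?_, ?_⟩
  · intro h0
    rw [h0] at hdisc
    have h1 : (NumberField.discr K₁ : ℚ) ≠ 0 := by exact_mod_cast NumberField.discr_ne_zero K₁
    have h2 : (NumberField.discr K₂ : ℚ) ≠ 0 := by exact_mod_cast NumberField.discr_ne_zero K₂
    apply mul_ne_zero (pow_ne_zero (finrank ℚ K₂) h1) (pow_ne_zero (finrank ℚ K₁) h2)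
    rw [hdisc]
    simp
  · exact_mod_cast hdisc
  · intro x
    set c : Free.ChooseBasisIndex ℤ (𝓞 L) → ℤ := fun a => β.repr x a with hc
    set d := Q.adjugate *ᵥ c with hd
    have hQd : Q *ᵥ d = Q.det • c := by
      rw [hd, Matrix.mulVec_mulVec, Matrix.mul_adjugate, Matrix.smul_mulVec, Matrix.one_mulVec]
    refine ⟨Finset.univ.toList.map fun i => (d i • β₁ (σ i).1, β₂ (σ i).2), ?_⟩
    rw [List.map_map, Finset.sum_map_toList, map_sum]
    have s1 : ∀ i, e (((fun u : 𝓞 K₁ × 𝓞 K₂ => (u.1 : K₁) ⊗ₜ[ℚ] (u.2 : K₂)) ∘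
        fun i => (d i • β₁ (σ i).1, β₂ (σ i).2)) i) = (d i : ℚ) • ∑ j, (Q j i : ℚ) • b j := by
      intro i
      rw [← hrel, ← map_smul]
      congr 1
      simp only [Function.comp_apply]
      rw [TensorProduct.smul_tmul']
      congr 1
      rw [Int.cast_smul_eq_zsmul]
      exact map_zsmul (algebraMap (𝓞 K₁) K₁) _ _
    rw [Finset.sum_congr rfl fun i _ => s1 i]
    simp only [Finset.smul_sum]
    rw [Finset.sum_comm]
    have s2 : ∀ j, ∑ i, (d i : ℚ) • (Q j i : ℚ) • b j = (Q.det : ℚ) • ((c j : ℚ) • b j) := by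
      intro j
      have := congrFun hQd j
      simp only [Matrix.mulVec, dotProduct, Pi.smul_apply, smul_eq_mul] at this
      rw [smul_smul]
      have h2 : ((Q.det : ℚ) * (c j : ℚ)) = ∑ i, (Q j i : ℚ) * (d i : ℚ) := by
        exact_mod_cast this.symm
      rw [h2, Finset.sum_smul]
      refine Finset.sum_congr rfl fun i _ => ?_
      rw [smul_smul, mul_comm]
    rw [Finset.sum_congr rfl fun j _ => s2 j, ← Finset.smul_sum, Int.cast_smul_eq_zsmul]
    congr 1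
    exact sum_repr_coe x

end main

theorem t_IDX3 : Pool.Agent.U309.ZF.S_IDX3 := by
  intro K₁ K₂ L _ _ _ _ _ _ e
  exact idx3 e

end Pool.Agent.U774.ZF
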